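import Pool.Agent.Q172.LT.Far

/-!
# Labelled trees: contractible complexes which are aspherical after removing any 2-cell

Let `T` be a finite tree whose edges are labelled by arbitrary vertices, and `v₀` a vertex.  An
orientation `o` of the edges gives the 2-complex `K(o)` with the 1-cells `x_v` (`v` a vertex) and the
2-cells with boundary `x_i x_l x_t⁻¹ x_l⁻¹`, where `i`, `t`, `l` are the initial vertex, the terminal
vertex and the label of an edge.  Let `f` be one more 2-cell, attached along the loop `x_{v₀}`.  Then
`K(o) ∪ f` is a finite contractible 2-complex.

Definitions (`LOG`, `Conn`, `ContractibleWith`, `LocInd`: `Pool.Agent.TH625.LOG`, starting library; all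
others: `Pool.Agent.Q172.LT`).

* `reorient L o`: the edges `e` with `o e = true` are reversed;
* `LeftOn L C`: for every edge both ends of which lie in `C` join its initial vertex with its label or,
  if the label does not lie in `C`, with its terminal vertex; the graph which arises is a forest;
* `far L v₀ e`: the vertices on the side of the edge `e` which does not contain `v₀`;
* `BranchTest L v₀`: `LeftOn L C` for the set `C` of all vertices and for `C = far L v₀ e`, for all `e`;
* `sub L W F`: the subcomplex with the 1-cells `W` and the 2-cells `F`; `Aspherical`: the boundary
  operator `C₂ → C₁` of its universal covering is injective; `AsphericalF`, `Gf`: the same, and the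
  fundamental group, for the subcomplex together with `f`;
* `BranchGood L v₀`: asphericity and locally indicable fundamental groups for (a) all subcomplexes
  without `f`, (b) all subcomplexes `K'` with `f` such that the vertices not joined with `v₀` in `K'`
  are those on the other side of some edge `e`, or there are none, (c) `K ∪ f` without the 2-cell `e`,
  for all `e`.
-/

set_option autoImplicit false

namespace Pool.Agent.Results.MP_75ccdc_gt.OneCellRemoved

open Pool.Agent.TH625.LOG Pool.Agent.Q172.LT

/-- Let `L` be a finite labelled oriented tree with `n` edges and `v₀` a vertex.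

(1) The complexes `K(o) ∪ f` of all `2 ^ n` orientations are contractible.

(2) An odd number of the orientations pass the test `BranchTest`.

(3) If `o` passes the test then `K(o) ∪ f` is aspherical, with locally indicable fundamental group,
after removing any one of its open 2-cells; and so are the other subcomplexes in `BranchGood`.

(4) `L` gets the property in (3) if suitable edges, no more than half of them, are reversed. -/
theorem result {V E : Type} [Fintype V] [Fintype E] [DecidableEq V] [DecidableEq E] (L : LOG V E)
    (hL : L.Conn) (hc : Fintype.card V = Fintype.card E + 1) (v₀ : V) :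
    (∀ o : E → Bool, (reorient L o).ContractibleWith v₀) ∧
    Odd (Nat.card {o : E → Bool // BranchTest (reorient L o) v₀}) ∧
    (∀ o : E → Bool, BranchTest (reorient L o) v₀ → BranchGood (reorient L o) v₀) ∧
    ∃ o : E → Bool, 2 * (Finset.univ.filter fun e => o e = true).card ≤ Fintype.card E ∧
      BranchGood (reorient L o) v₀ := by
  obtain ⟨r⟩ := exists_rooted_finite L hL hc v₀
  obtain ⟨β⟩ := exists_numbering hc v₀
  have htest : ∀ o, BranchTest (reorient L o) v₀ ↔ ∀ v, LeftOn (reorient L o) (r.branch v) :=
    fun o => branchTest_iff (r.reor o)
  obtain ⟨o₁, ho₁⟩ := r.exists_branches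
  refine ⟨fun o => contractibleWith _ (reorient_conn L hL o) hc v₀, ?_,
    fun o ho => (branchGood_pair r o ((htest o).1 ho)).1, ?_⟩
  · rw [Nat.card_congr (Equiv.subtypeEquivRight htest)]
    exact r.odd_branches hL β
  · obtain ⟨o, h1, h2⟩ := exists_near (fun o => BranchGood (reorient L o) v₀) o₁
      (branchGood_pair r o₁ ho₁).1 (branchGood_pair r o₁ ho₁).2 fun _ => false
    refine ⟨o, ?_, h2⟩
    simpa using h1

end Pool.Agent.Results.MP_75ccdc_gt.OneCellRemoved
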